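import Pool.Agent.Helper77K9.SobB.Main

/-!
# MP_b3b95b_an: bounded extensions of biorthogonal functionals with dense sum

Q1 has an affirmative answer. The operator `y ↦ (φ_n y)` from `[x_n]` to `c_0` has an extension
`z ↦ (F_n z)` from `E` to `c_0` of norm at most `2 sup ‖φ_n‖` (Sobczyk's theorem, proved here by
Veech's argument). It is then changed by a small nuclear operator which vanishes on `[x_n]`, so that the
images of the members of a sequence whose span together with `[x_n]` is dense become finitely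
supported. If `(f_n z)` is finitely supported, `z` is the sum of `∑ f_n(z) x_n` and an element
of the common kernel of the `f_n`.
-/

set_option autoImplicit false

namespace Pool.Agent.Results.MP_b3b95b_an.SobczykExtension

universe u v

/-- Let `E` be a separable normed space over `𝕜` (the real or the complex numbers), `x_n` a
sequence in `E`, `[x_n]` its closed linear span, and `φ_n` continuous functionals on `[x_n]` with
`φ_i (x_j) = δ_ij` and `‖φ_n‖ ≤ C`. Then for every `ε > 0` there are `f_n` in the dual of `E` which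
extend the `φ_n`, with `‖f_n‖ ≤ 2 C + ε`, such that the sum of `[x_n]` and of the common kernel of
the `f_n` is dense in `E`. -/
theorem result (𝕜 : Type v) [RCLike 𝕜] (E : Type u) [NormedAddCommGroup E] [NormedSpace 𝕜 E]
    [TopologicalSpace.SeparableSpace E] (x : ℕ → E)
    (φ : ℕ → (Submodule.span 𝕜 (Set.range x)).topologicalClosure →L[𝕜] 𝕜)
    (hφ : ∀ i j, ∀ h : x j ∈ (Submodule.span 𝕜 (Set.range x)).topologicalClosure,
      φ i ⟨x j, h⟩ = if i = j then 1 else 0)
    (C : ℝ) (hC : ∀ n, ‖φ n‖ ≤ C) (ε : ℝ) (hε : 0 < ε) :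
    ∃ f : ℕ → E →L[𝕜] 𝕜,
      (∀ n, ∀ y : (Submodule.span 𝕜 (Set.range x)).topologicalClosure, f n (y : E) = φ n y) ∧
      (∀ n, ‖f n‖ ≤ 2 * C + ε) ∧
      Dense (((Submodule.span 𝕜 (Set.range x)).topologicalClosure ⊔
        ⨅ n, LinearMap.ker (f n : E →ₗ[𝕜] 𝕜) : Submodule 𝕜 E) : Set E) := by
  obtain ⟨f, h1, h2, h3⟩ := Pool.Agent.Helper77K9.SobB.main x φ C hC hφ ε hε
  refine ⟨f, h1, h2, h3.mono ?_⟩
  rintro z ⟨y, hy, w, hw, rfl⟩
  refine Submodule.add_mem_sup hy ?_
  rw [Submodule.mem_iInf]
  intro n
  exact hw n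

end Pool.Agent.Results.MP_b3b95b_an.SobczykExtension
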